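import Pool.Agent.U364.BM.LI2

/-!
# Project BM (helper856), package LI
-/

set_option autoImplicit false

open Set Filter Topology ComplexConjugate

namespace Pool.Agent.U364.BM.LI

open Pool.Agent.U856.BM Relation

variable {a b v α : ℝ} {h q : ℕ}

/-- the conclusion from a subsequence -/
theorem concl (z : ℕ → St × ℝ × ℝ) (θ : ℕ → ℕ) (hθ : Tendsto θ atTop atTop) (i : St) (u : ℝ)
    (f : ℕ → ℝ) (hf : Tendsto f atTop (𝓝 u)) (hz : ∀ᶠ n in atTop, (z (θ n)).1 = i ∧ (z (θ n)).2.1 = f n) :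
    ∀ ε : ℝ, 0 < ε → ∀ n, ∃ m, n ≤ m ∧ (z m).1 = i ∧ |(z m).2.1 - u| < ε := by
  intro ε hε n
  have h1 : ∀ᶠ k in atTop, |f k - u| < ε := by
    have := (Metric.tendsto_nhds.1 hf) ε hε
    simpa [Real.dist_eq] using this
  obtain ⟨k, h2, h3, h4⟩ := (h1.and (hz.and (hθ.eventually_ge_atTop n))).exists
  refine ⟨θ k, h4, h3.1, ?_⟩
  rw [h3.2]
  exact h2

/-- the final part of the argument, for a limit point of the coordinates in the closed range -/
theorem last (hR : Rat a b v α h q) (hEX : S_EX) (z : ℕ → St × ℝ × ℝ)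
    (hst : ∀ n, Stp a b v α (z n) (z (n + 1))) (hAl : ∀ n, Al q (z n).1)
    (hIn : ∀ n, InR a b v α (z n).1 (z n).2.1)
    (i : St) (hi : ¬ C0 i) (θ : ℕ → ℕ) (hθ : StrictMono θ) (hzi : ∀ n, (z (θ n)).1 = i) (us : ℝ)
    (hlim : Tendsto (fun n => (z (θ n)).2.1) atTop (𝓝 us)) :
    ∃ (i : St) (u : ℝ), Al q i ∧ ¬ C0 i ∧ InR a b v α i u ∧
      ∀ ε : ℝ, 0 < ε → ∀ n, ∃ m, n ≤ m ∧ (z m).1 = i ∧ |(z m).2.1 - u| < ε := by
  have hOk := hR.1
  have hAi : Al q i := by
    have := hAl (θ 0)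
    rwa [hzi] at this
  by_cases hus : InR a b v α i us
  · exact ⟨i, us, hAi, hi, hus, concl z θ hθ.tendsto_atTop i us _ hlim
      (Eventually.of_forall fun n => ⟨hzi n, rfl⟩)⟩
  -- the limit is an end of the range
  have hI : ∀ n, InR a b v α i (z (θ n)).2.1 := fun n => by
    have := hIn (θ n)
    rwa [hzi] at this
  have hext : ∃ ς : ℝ, (ς = 1 ∨ ς = -1) ∧ ∃ k0 : Fin 5, us = uu a b i (vS a b v α k0) ∧
      (∀ m, ς * uu a b i (vS a b v α m) ≤ ς * uu a b i (vS a b v α k0)) ∧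
      ∀ n, ς * (z (θ n)).2.1 < ς * uu a b i (vS a b v α k0) := by
    by_cases hA : ∃ k, uu a b i (vS a b v α k) < us
    · have hB : ∀ k, uu a b i (vS a b v α k) ≤ us := by
        intro k
        by_contra hk
        exact hus ⟨hA, k, not_le.1 hk⟩
      obtain ⟨k0, hk0⟩ := Finite.exists_max (fun k => uu a b i (vS a b v α k))
      have h1 : ∀ n, (z (θ n)).2.1 < uu a b i (vS a b v α k0) := by
        intro n
        obtain ⟨-, k, hk⟩ := hI n
        exact hk.trans_le (hk0 k)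
      refine ⟨1, Or.inl rfl, k0, ?_, fun m => ?_, fun n => ?_⟩
      · exact le_antisymm (le_of_tendsto' hlim fun n => (h1 n).le) (hB k0)
      · simpa using hk0 m
      · simpa using h1 n
    · have hB : ∀ k, us ≤ uu a b i (vS a b v α k) := by
        intro k
        by_contra hk
        exact hA ⟨k, not_le.1 hk⟩
      obtain ⟨k0, hk0⟩ := Finite.exists_min (fun k => uu a b i (vS a b v α k))
      have h1 : ∀ n, uu a b i (vS a b v α k0) < (z (θ n)).2.1 := by
        intro n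
        obtain ⟨⟨k, hk⟩, -⟩ := hI n
        exact (hk0 k).trans_lt hk
      refine ⟨-1, Or.inr rfl, k0, ?_, fun m => ?_, fun n => ?_⟩
      · exact le_antisymm (hB k0) (ge_of_tendsto' hlim fun n => (h1 n).le)
      · simpa using hk0 m
      · simpa using h1 n
  obtain ⟨ς, hς, k0, hk0, hmax, hlt⟩ := hext
  have hD : ∀ j, dt (dd a b) (G i (nS α j)) ≠ 0 :=
    (hEX a b v α h q hR i us hAi).2.2.2.2.2.2.2.2
  obtain ⟨hDD, hn1, hn2⟩ := ext_signs hOk i k0 hς hD hmax
  have hnn := nn_nonneg hOk k0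
  -- the side s
  have hside : ∃ s : Fin 5, s ≠ 3 ∧ dt (nS α s) (vS a b v α k0) = oS a b v s ∧
      (∃ m, ς * uu a b i (vS a b v α m) < ς * uu a b i (vS a b v α k0) ∧
        ((s = k0 ∧ s + 1 = m) ∨ (s = m ∧ s + 1 = k0))) ∧
      InR a b v α (rs α s i) (uu a b (rs α s i) (vS a b v α k0)) := by
    by_cases hs : k0 = 3
    · have hs' : k0 - 1 ≠ 3 := by
        rw [hs]
        decide
      refine ⟨k0 - 1, hs', ?_, ⟨k0 - 1, hn2, Or.inr ⟨rfl, sub_add_cancel _ _⟩⟩, ?_⟩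
      · have := (vS_on hOk (k0 - 1)).2
        rwa [sub_add_cancel] at this
      · apply inR_of_same hOk
        rw [D_rs_self, D_rs, dt_comm (nS α (k0 - 1)) (nS α k0)]
        nlinarith [mul_nonneg hnn (mul_self_nonneg (dt (dd a b) (G i (nS α (k0 - 1)))))]
    · refine ⟨k0, hs, (vS_on hOk k0).1, ⟨k0 + 1, hn1, Or.inl ⟨rfl, rfl⟩⟩, ?_⟩
      apply inR_of_same hOk
      rw [D_rs_self, D_rs]
      nlinarith [mul_nonneg hnn (mul_self_nonneg (dt (dd a b) (G i (nS α k0))))]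
  obtain ⟨s, hs3, hon, ⟨m, hm, hsm⟩, hInR⟩ := hside
  obtain ⟨c, hc⟩ : ∃ c, c = 2 * oS a b v s * cr (dd a b) (G i (nS α s)) := ⟨_, rfl⟩
  have hu' : uu a b (rs α s i) (vS a b v α k0) = us - c := by
    rw [uu_rs, hon, hk0, hc]
  rw [hu'] at hInR
  have hlim' : Tendsto (fun n => (z (θ n)).2.1 - c) atTop (𝓝 (us - c)) := hlim.sub_const c
  -- strictly between
  have hbet : ∀ᶠ n in atTop, min (uu a b i (vS a b v α s)) (uu a b i (vS a b v α (s + 1))) <
      (z (θ n)).2.1 ∧ (z (θ n)).2.1 < max (uu a b i (vS a b v α s)) (uu a b i (vS a b v α (s + 1))) := by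
    have hsw : min (uu a b i (vS a b v α s)) (uu a b i (vS a b v α (s + 1))) =
        min (uu a b i (vS a b v α k0)) (uu a b i (vS a b v α m)) ∧
        max (uu a b i (vS a b v α s)) (uu a b i (vS a b v α (s + 1))) =
        max (uu a b i (vS a b v α k0)) (uu a b i (vS a b v α m)) := by
      rcases hsm with ⟨g1, g2⟩ | ⟨g1, g2⟩
      · rw [g2, g1]
        exact ⟨rfl, rfl⟩
      · rw [g2, g1]
        exact ⟨min_comm _ _, max_comm _ _⟩
    rw [hsw.1, hsw.2, ← hk0]
    rw [← hk0] at hm hlt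
    rcases hς with rfl | rfl
    · simp only [one_mul] at hm hlt
      filter_upwards [hlim.eventually_const_lt hm] with n hn
      rw [min_eq_right hm.le, max_eq_left hm.le]
      exact ⟨hn, hlt n⟩
    · have hm' : us < uu a b i (vS a b v α m) := by linarith
      filter_upwards [hlim.eventually_lt_const hm'] with n hn
      rw [min_eq_left hm'.le, max_eq_right hm'.le]
      exact ⟨by linarith [hlt n], hn⟩
  rcases lt_or_gt_of_ne (hD s) with hneg | hpos
  · -- the previous chord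
    have hθ' : Tendsto (fun n => θ n - 1) atTop atTop :=
      (tendsto_sub_atTop_nat 1).comp hθ.tendsto_atTop
    refine ⟨rs α s i, us - c, Al_rs hs3 hAi, C0_rs hs3 hi, hInR,
      concl z (fun n => θ n - 1) hθ' _ _ _ hlim' ?_⟩
    filter_upwards [hbet, hθ.tendsto_atTop.eventually_ge_atTop 1] with n hn hn1
    have e0 : θ n - 1 + 1 = θ n := by omega
    -- the candidate
    have hrr : G (rs α s i) (nS α s) = -G i (nS α s) := by
      rw [G_rs, unit_n, mul_one]
      have : nS α s + (-2 : ℝ) • nS α s = (-1 : ℝ) • nS α s := by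
        module
      rw [this, G_smul]
      module
    have hcand : Stq a b v α (rs α s i, (z (θ n)).2.1 - c) (i, (z (θ n)).2.1) := by
      refine ⟨s, ⟨?_, ?_, ?_⟩, ?_⟩
      · show 0 < dt (dd a b) (G (rs α s i) (nS α s))
        rw [D_rs_self]
        linarith
      · show min (uu a b (rs α s i) (vS a b v α s)) (uu a b (rs α s i) (vS a b v α (s + 1))) <
          (z (θ n)).2.1 - c
        rw [uu_rs, uu_rs, (vS_on hOk s).1, (vS_on hOk s).2, ← hc, min_sub_sub_right]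
        linarith [hn.1]
      · show (z (θ n)).2.1 - c <
          max (uu a b (rs α s i) (vS a b v α s)) (uu a b (rs α s i) (vS a b v α (s + 1)))
        rw [uu_rs, uu_rs, (vS_on hOk s).1, (vS_on hOk s).2, ← hc, max_sub_sub_right]
        linarith [hn.2]
      · show (i, (z (θ n)).2.1) = (rs α s (rs α s i), (z (θ n)).2.1 - c -
          2 * oS a b v s * cr (dd a b) (G (rs α s i) (nS α s)))
        have e5 : cr (dd a b) (-G i (nS α s)) = -cr (dd a b) (G i (nS α s)) := by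
          unfold cr
          rw [Complex.neg_re, Complex.neg_im]
          ring
        rw [rs_rs, hrr, e5, hc]
        congr 1
        ring
    have hreal : Stq a b v α ((z (θ n - 1)).1, (z (θ n - 1)).2.1) (i, (z (θ n)).2.1) := by
      obtain ⟨j, hj, e⟩ := hst (θ n - 1)
      rw [e0] at e
      refine ⟨j, hj, ?_⟩
      have e6 := hzi n
      rw [← e6]
      rw [e]
    have := (hEX a b v α h q hR i (z (θ n)).2.1 hAi).2.2.2.2.2.1 _ _ hreal hcand
    have e7 := congrArg Prod.fst this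
    have e8 := congrArg Prod.snd this
    exact ⟨e7, e8⟩
  · -- the next chord
    have hθ' : Tendsto (fun n => θ n + 1) atTop atTop :=
      tendsto_atTop_mono (fun n => Nat.le_succ _) hθ.tendsto_atTop
    refine ⟨rs α s i, us - c, Al_rs hs3 hAi, C0_rs hs3 hi, hInR,
      concl z (fun n => θ n + 1) hθ' _ _ _ hlim' ?_⟩
    filter_upwards [hbet] with n hn
    obtain ⟨j, hj, e⟩ := hst (θ n)
    rw [hzi] at hj
    have hex : Exit a b v α i (z (θ n)).2.1 s := ⟨hpos, hn.1, hn.2⟩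
    have hjs : j = s := (hEX a b v α h q hR i (z (θ n)).2.1 hAi).2.1 j s hj hex
    subst hjs
    rw [e, hzi, hc]
    exact ⟨rfl, rfl⟩

/-- **Package LI.** -/
theorem t_LI : S_EX → S_NS → S_KZ → S_LI := by
  intro hEX hNS _ a b v α h q hR
  have hOk := hR.1
  have hq5 : 5 ≤ q := hR.2.2.2.1
  have hα : α = Real.pi * h / q := hR.2.2.2.2
  have hq : q ≠ 0 := by omega
  obtain ⟨hs4, hs3⟩ := start hOk
  have hAl0 : Al q (i0 α) := Al_i0 hq hα
  have hC0 : ¬ C0 (i0 α) := C0_rs3 hOk.2.2.2.2.2.2.1 hOk.2.2.2.2.2.2.2 (i := (1, true)) (by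
    show (1 : ℂ) ^ 2 = 1
    norm_num)
  have hV : VV v α = vS a b v α 4 := rfl
  have hIn0 : InR a b v α (i0 α) (uu a b (i0 α) (VV v α)) := by
    rw [hV]
    apply inR_of_same hOk
    exact mul_pos_of_neg_of_neg hs4 hs3
  have hEn : AtEntry a b v α (i0 α, uu a b (i0 α) (VV v α)) 4 := ⟨rfl, hs4, hs3⟩
  let Good : St × ℝ × ℝ → Prop := fun z => Al q z.1 ∧ InR a b v α z.1 z.2.1 ∧
    ReflTransGen (Stq a b v α) (i0 α, uu a b (i0 α) (VV v α)) (z.1, z.2.1)
  have next : ∀ z, Good z → ∃ z', Stp a b v α z z' ∧ Good z' := by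
    rintro z ⟨g1, g2, g3⟩
    obtain ⟨E1, E2, E3, -⟩ := hEX a b v α h q hR z.1 z.2.1 g1
    rcases E1 g2 with ⟨j, hj⟩ | ⟨k, hk⟩
    · obtain ⟨f1, f2, f3⟩ := E3 j hj
      refine ⟨_, ⟨j, hj, rfl⟩, f2, f3, g3.tail ⟨j, hj, rfl⟩⟩
    · exact absurd ((hNS a b v α h q hR).1 _ _ _ hAl0 ReflTransGen.refl g3 ⟨4, hEn⟩ ⟨k, hk⟩) hC0
  choose! f hf using next
  have hG0 : Good (zs a b v α) := ⟨hAl0, hIn0, ReflTransGen.refl⟩
  have hG : ∀ n, Good (f^[n] (zs a b v α)) := by
    intro n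
    induction n with
    | zero => exact hG0
    | succ n ih =>
      rw [Function.iterate_succ_apply']
      exact (hf _ ih).2
  have hst : ∀ n, Stp a b v α (f^[n] (zs a b v α)) (f^[n + 1] (zs a b v α)) := by
    intro n
    rw [Function.iterate_succ_apply']
    exact (hf _ (hG n)).1
  obtain ⟨z, hz⟩ : ∃ z : ℕ → St × ℝ × ℝ, z = fun n => f^[n] (zs a b v α) := ⟨_, rfl⟩
  have hz0 : z 0 = zs a b v α := by rw [hz]; rfl
  have hst' : ∀ n, Stp a b v α (z n) (z (n + 1)) := by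
    rw [hz]
    exact hst
  have hAl : ∀ n, Al q (z n).1 := by
    rw [hz]
    exact fun n => (hG n).1
  have hIn : ∀ n, InR a b v α (z n).1 (z n).2.1 := by
    rw [hz]
    exact fun n => (hG n).2.1
  have hsq : ∀ n, Stq a b v α ((z n).1, (z n).2.1) ((z (n + 1)).1, (z (n + 1)).2.1) := by
    intro n
    obtain ⟨j, hj, e⟩ := hst' n
    refine ⟨j, hj, ?_⟩
    rw [e]
  refine ⟨z, hz0, hst', ?_⟩
  have hinj : Function.Injective fun n => ((z n).1, (z n).2.1) := by
    refine inj_abs (R := Stq a b v α) hsq (fun n x y hx hy => ?_) ?_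
    · exact (hEX a b v α h q hR (z n).1 (z n).2.1 (hAl n)).2.2.2.2.2.1 x y hx hy
    · show ¬ ∃ x, Stq a b v α x ((z 0).1, (z 0).2.1)
      rw [hz0]
      exact (hEX a b v α h q hR (i0 α) (uu a b (i0 α) (VV v α)) hAl0).2.2.2.2.2.2.2.1 4 hEn
  obtain ⟨B, hB⟩ := bdd a b v α hq
  have hBz : ∀ n, |(z n).2.1| ≤ B := fun n => hB _ (hAl n) _ (hIn n)
  have hne := not_ev hOk hq hst' hAl hBz hinj
  have hfr : ∃ i, Al q i ∧ ¬ C0 i ∧ ∃ᶠ n in atTop, (z n).1 = i := by
    by_contra hcon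
    push Not at hcon
    apply hne
    have hfin : {i : St | Al q i ∧ ¬ C0 i}.Finite := (fin_Al hq).subset fun i hi => hi.1
    have h1 : ∀ᶠ n in atTop, ∀ i ∈ {i : St | Al q i ∧ ¬ C0 i}, (z n).1 ≠ i := by
      rw [Filter.eventually_all_finite hfin]
      intro i hi
      exact hcon i hi.1 hi.2
    filter_upwards [h1] with n hn
    by_contra hc
    exact hn _ ⟨hAl n, hc⟩ rfl
  obtain ⟨i, hAi, hi, hfr⟩ := hfr
  obtain ⟨φ, hφ, hφi⟩ := Filter.extraction_of_frequently_atTop hfr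
  obtain ⟨us, -, ψ, hψ, hlim⟩ := (isCompact_Icc (a := -B) (b := B)).tendsto_subseq
    (x := fun n => (z (φ n)).2.1) (fun n => abs_le.1 (hBz (φ n)))
  exact last hR hEX z hst' hAl hIn i hi (φ ∘ ψ) (hφ.comp hψ) (fun n => hφi (ψ n)) us hlim

end Pool.Agent.U364.BM.LI
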