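import Pool.Agent.U856.BM.Stm2

/-!
# Project BM (helper856), package LI: geometry of the vertices
-/

set_option autoImplicit false

open Set Filter Topology ComplexConjugate

namespace Pool.Agent.U364.BM.LI

open Pool.Agent.U856.BM Relation

theorem trig {α : ℝ} (h1 : 0.75 < α) (h2 : α < 0.82) : 0.61 < Real.sin α ∧ 0.66 < Real.cos α := by
  constructor
  · have h3 := Real.sin_gt_sub_cube (x := α) (by linarith)
    have h4 : α ^ 3 < 0.82 ^ 3 := pow_lt_pow_left₀ h2 (by linarith) (by norm_num)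
    norm_num at h4
    linarith
  · have h3 := Real.one_sub_sq_div_two_le_cos (x := α)
    have h4 : α ^ 2 < 0.82 ^ 2 := pow_lt_pow_left₀ h2 (by linarith) (by norm_num)
    norm_num at h4
    linarith

theorem G_add (i : St) (x y : ℂ) : G i (x + y) = G i x + G i y := by
  unfold G
  split_ifs
  · rw [mul_add]
  · rw [map_add, mul_add]

theorem G_smul (i : St) (r : ℝ) (x : ℂ) : G i (r • x) = r • G i x := by
  unfold G
  split_ifs
  · rw [mul_smul_comm]
  · rw [Complex.real_smul, map_mul, Complex.conj_ofReal, Complex.real_smul]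
    ring

theorem cr_add (d x y : ℂ) : cr d (x + y) = cr d x + cr d y := by
  unfold cr
  rw [Complex.add_re, Complex.add_im]
  ring

theorem cr_smul (d : ℂ) (r : ℝ) (x : ℂ) : cr d (r • x) = r * cr d x := by
  unfold cr
  rw [Complex.smul_re, Complex.smul_im, smul_eq_mul, smul_eq_mul]
  ring

theorem dt_add (d x y : ℂ) : dt d (x + y) = dt d x + dt d y := by
  unfold dt
  rw [Complex.add_re, Complex.add_im]
  ring

theorem dt_smul (d : ℂ) (r : ℝ) (x : ℂ) : dt d (r • x) = r * dt d x := by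
  unfold dt
  rw [Complex.smul_re, Complex.smul_im, smul_eq_mul, smul_eq_mul]
  ring

theorem refl_eq {n : ℂ} (hn : dt n n = 1) (x : ℂ) : x + (-(2 * dt n x)) • n = -(n ^ 2 * conj x) := by
  unfold dt at *
  apply Complex.ext
  · simp [pow_two]
    linear_combination (-x.re) * hn
  · simp [pow_two]
    linear_combination (-x.im) * hn

theorem unit_n (α : ℝ) (j : Fin 5) : dt (nS α j) (nS α j) = 1 := by
  have h := Real.sin_sq_add_cos_sq α
  fin_cases j <;> simp [nS, dt]
  nlinarith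

theorem G_rs (α : ℝ) (j : Fin 5) (i : St) (x : ℂ) :
    G (rs α j i) x = G i (x + (-(2 * dt (nS α j) x)) • nS α j) := by
  rw [refl_eq (unit_n α j)]
  obtain ⟨w, τ⟩ := i
  cases τ
  · simp [G, rs]
    ring
  · simp [G, rs]
    ring

theorem conj_sq (n : ℂ) (hn : dt n n = 1) : n ^ 2 * conj (n ^ 2) = 1 := by
  rw [Complex.mul_conj, map_pow]
  have : Complex.normSq n = 1 := by
    rw [Complex.normSq_apply]
    exact hn
  rw [this]
  norm_num

theorem rs_rs (α : ℝ) (j : Fin 5) (i : St) : rs α j (rs α j i) = i := by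
  have h := conj_sq _ (unit_n α j)
  obtain ⟨w, τ⟩ := i
  cases τ
  · unfold rs
    ext
    · simp only [Bool.not_false, if_true, Bool.false_eq_true, if_false]
      linear_combination w * h
    · simp
  · unfold rs
    ext
    · simp only [Bool.not_true, if_true, Bool.false_eq_true, if_false]
      linear_combination w * h
    · simp

/-- the sign of the orientation -/
def sg (i : St) : ℝ := if i.2 then 1 else -1

theorem sg_ne (i : St) : sg i = 1 ∨ sg i = -1 := by
  unfold sg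
  split_ifs
  · exact Or.inl rfl
  · exact Or.inr rfl

theorem cr_I (d : ℂ) (i : St) (n : ℂ) : cr d (G i (Complex.I * n)) = sg i * dt d (G i n) := by
  obtain ⟨w, τ⟩ := i
  cases τ
  · simp [G, sg, cr, dt]
    ring
  · simp [G, sg, cr, dt]
    ring

variable {a b v α : ℝ}

theorem shift_re (x n : ℂ) (l : ℝ) : (x + l • (Complex.I * n)).re = x.re - l * n.im := by
  simp
  ring

theorem shift_im (x n : ℂ) (l : ℝ) : (x + l • (Complex.I * n)).im = x.im + l * n.re := by
  simp

theorem vS_next (hOk : Ok a b v α) (k : Fin 5) :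
    ∃ l : ℝ, 0 < l ∧ vS a b v α (k + 1) = vS a b v α k + l • (Complex.I * nS α k) := by
  obtain ⟨h1, h2, h3, h4, h5, h6, h7, h8⟩ := hOk
  obtain ⟨hs, hc⟩ := trig h7 h8
  have hs0 : 0 < Real.sin α := by linarith
  have hc0 : 0 < Real.cos α := by linarith
  have e1 : v / Real.cos α < 0.2 := by
    rw [div_lt_iff₀ hc0]
    linarith
  have e2 : v / Real.sin α < 0.2 := by
    rw [div_lt_iff₀ hs0]
    linarith
  fin_cases k
  · exact ⟨b, by linarith, by
      apply Complex.ext <;> [rw [shift_re]; rw [shift_im]] <;> simp [vS, nS] <;> try ring⟩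
  · exact ⟨a, by linarith, by
      apply Complex.ext <;> [rw [shift_re]; rw [shift_im]] <;> simp [vS, nS] <;> try ring⟩
  · exact ⟨b - v / Real.cos α, by linarith, by
      apply Complex.ext <;> [rw [shift_re]; rw [shift_im]] <;> simp [vS, nS] <;> try ring⟩
  · refine ⟨v / (Real.sin α * Real.cos α), by positivity, ?_⟩
    apply Complex.ext
    · rw [shift_re]
      simp [vS, nS]
      field_simp
    · rw [shift_im]
      simp [vS, nS]
      field_simp
      ring
  · exact ⟨a - v / Real.sin α, by linarith, by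
      apply Complex.ext <;> [rw [shift_re]; rw [shift_im]] <;> simp [vS, nS] <;> try ring⟩

theorem vS_on (hOk : Ok a b v α) (k : Fin 5) : dt (nS α k) (vS a b v α k) = oS a b v k ∧
    dt (nS α k) (vS a b v α (k + 1)) = oS a b v k := by
  obtain ⟨h1, h2, h3, h4, h5, h6, h7, h8⟩ := hOk
  obtain ⟨hs, hc⟩ := trig h7 h8
  have hs0 : Real.sin α ≠ 0 := by linarith
  have hc0 : Real.cos α ≠ 0 := by linarith
  fin_cases k
  · constructor <;> simp [vS, nS, oS, dt]
  · constructor <;> simp [vS, nS, oS, dt]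
  · constructor <;> simp [vS, nS, oS, dt]
  · constructor
    · simp [vS, nS, oS, dt]
      field_simp
    · simp [vS, nS, oS, dt]
      field_simp
  · constructor <;> simp [vS, nS, oS, dt]

theorem nn_nonneg (hOk : Ok a b v α) (k : Fin 5) : 0 ≤ dt (nS α k) (nS α (k - 1)) := by
  obtain ⟨h1, h2, h3, h4, h5, h6, h7, h8⟩ := hOk
  obtain ⟨hs, hc⟩ := trig h7 h8
  fin_cases k
  · show 0 ≤ dt (nS α 0) (nS α 4)
    simp [nS, dt]
  · show 0 ≤ dt (nS α 1) (nS α 0)
    simp [nS, dt]
  · show 0 ≤ dt (nS α 2) (nS α 1)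
    simp [nS, dt]
  · show 0 ≤ dt (nS α 3) (nS α 2)
    simp [nS, dt]
    linarith
  · show 0 ≤ dt (nS α 4) (nS α 3)
    simp [nS, dt]
    linarith

theorem nS_sq (α : ℝ) (s : Fin 5) (hs : s ≠ 3) : nS α s ^ 2 = 1 ∨ nS α s ^ 2 = -1 := by
  fin_cases s
  · left; simp [nS]
  · right; simp [nS]
  · left; simp [nS]
  · exact absurd rfl hs
  · right; simp [nS]

theorem dt_comm (x y : ℂ) : dt x y = dt y x := by
  unfold dt
  ring

/-- the scalar product with the normal after a reflection -/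
theorem D_rs (d : ℂ) (i : St) (s m : Fin 5) : dt d (G (rs α s i) (nS α m)) =
    dt d (G i (nS α m)) - 2 * dt (nS α s) (nS α m) * dt d (G i (nS α s)) := by
  rw [G_rs, G_add, G_smul, dt_add, dt_smul]
  ring

theorem D_rs_self (d : ℂ) (i : St) (s : Fin 5) : dt d (G (rs α s i) (nS α s)) =
    -dt d (G i (nS α s)) := by
  rw [D_rs, unit_n]
  ring

theorem uu_rs (a b : ℝ) (i : St) (s : Fin 5) (x : ℂ) : uu a b (rs α s i) x =
    uu a b i x - 2 * dt (nS α s) x * cr (dd a b) (G i (nS α s)) := by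
  unfold uu
  rw [G_rs, G_add, G_smul, cr_add, cr_smul]
  ring

theorem uu_next (hOk : Ok a b v α) (i : St) (k : Fin 5) : ∃ l : ℝ, 0 < l ∧
    uu a b i (vS a b v α (k + 1)) = uu a b i (vS a b v α k) +
      l * (sg i * dt (dd a b) (G i (nS α k))) := by
  obtain ⟨l, hl, e⟩ := vS_next hOk k
  refine ⟨l, hl, ?_⟩
  unfold uu
  rw [e, G_add, G_smul, cr_add, cr_smul, cr_I]

/-- the line through a vertex meets the interior if the two scalar products have the same sign -/
theorem inR_of_same (hOk : Ok a b v α) (i : St) (k : Fin 5)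
    (h : 0 < dt (dd a b) (G i (nS α k)) * dt (dd a b) (G i (nS α (k - 1)))) :
    InR a b v α i (uu a b i (vS a b v α k)) := by
  obtain ⟨l, hl, e⟩ := uu_next hOk i k
  obtain ⟨l', hl', e'⟩ := uu_next hOk i (k - 1)
  rw [sub_add_cancel] at e'
  have hpos : 0 < (l * (sg i * dt (dd a b) (G i (nS α k)))) *
      (l' * (sg i * dt (dd a b) (G i (nS α (k - 1))))) := by
    have h1 : sg i * sg i = 1 := by
      rcases sg_ne i with h | h <;> rw [h] <;> norm_num
    have h2 : (l * (sg i * dt (dd a b) (G i (nS α k)))) *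
      (l' * (sg i * dt (dd a b) (G i (nS α (k - 1))))) = l * l' * (sg i * sg i) *
        (dt (dd a b) (G i (nS α k)) * dt (dd a b) (G i (nS α (k - 1)))) := by ring
    rw [h2, h1]
    positivity
  rcases pos_and_pos_or_neg_and_neg_of_mul_pos hpos with ⟨h1, h2⟩ | ⟨h1, h2⟩
  · exact ⟨⟨k - 1, by linarith⟩, ⟨k + 1, by linarith⟩⟩
  · exact ⟨⟨k + 1, by linarith⟩, ⟨k - 1, by linarith⟩⟩

/-- at an extreme vertex the two scalar products have different signs -/
theorem ext_signs (hOk : Ok a b v α) (i : St) (k : Fin 5) {ς : ℝ} (hς : ς = 1 ∨ ς = -1)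
    (hD : ∀ j, dt (dd a b) (G i (nS α j)) ≠ 0)
    (h : ∀ m, ς * uu a b i (vS a b v α m) ≤ ς * uu a b i (vS a b v α k)) :
    dt (dd a b) (G i (nS α k)) * dt (dd a b) (G i (nS α (k - 1))) < 0 ∧
    ς * uu a b i (vS a b v α (k + 1)) < ς * uu a b i (vS a b v α k) ∧
    ς * uu a b i (vS a b v α (k - 1)) < ς * uu a b i (vS a b v α k) := by
  obtain ⟨l, hl, e⟩ := uu_next hOk i k
  obtain ⟨l', hl', e'⟩ := uu_next hOk i (k - 1)
  rw [sub_add_cancel] at e'
  have h1 := h (k + 1)
  have h2 := h (k - 1)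
  have hD1 := hD k
  have hD2 := hD (k - 1)
  obtain ⟨D1, hd1⟩ : ∃ D1, D1 = dt (dd a b) (G i (nS α k)) := ⟨_, rfl⟩
  obtain ⟨D2, hd2⟩ : ∃ D2, D2 = dt (dd a b) (G i (nS α (k - 1))) := ⟨_, rfl⟩
  rw [← hd1] at e hD1 ⊢
  rw [← hd2] at e' hD2 ⊢
  have key : ∀ τ : ℝ, τ = 1 ∨ τ = -1 → (ς * (l * (τ * D1)) ≤ 0) → (0 ≤ ς * (l' * (τ * D2))) →
      D1 * D2 < 0 ∧ ς * (l * (τ * D1)) < 0 ∧ 0 < ς * (l' * (τ * D2)) := by
    intro τ hτ g1 g2
    have g3 : ς * (l * (τ * D1)) < 0 := by
      refine lt_of_le_of_ne g1 ?_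
      rcases hς with h | h <;> rcases hτ with h' | h' <;> rw [h, h'] <;>
        simp [hl.ne', hD1]
    have g4 : 0 < ς * (l' * (τ * D2)) := by
      refine lt_of_le_of_ne g2 ?_
      rcases hς with h | h <;> rcases hτ with h' | h' <;> rw [h, h'] <;>
        simp [hl'.ne', hD2, eq_comm]
    refine ⟨?_, g3, g4⟩
    have g5 := mul_neg_of_neg_of_pos g3 g4
    have hςτ : ς * ς = 1 ∧ τ * τ = 1 := by
      rcases hς with h | h <;> rcases hτ with h' | h' <;> rw [h, h'] <;> norm_num
    have g6 : ς * (l * (τ * D1)) * (ς * (l' * (τ * D2))) = (ς * ς) * (τ * τ) * (l * l') * (D1 * D2) := by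
      ring
    rw [g6, hςτ.1, hςτ.2, one_mul, one_mul] at g5
    exact neg_of_mul_neg_right g5 (by positivity)
  obtain ⟨k1, k2, k3⟩ := key (sg i) (sg_ne i) (by rw [e] at h1; linarith) (by rw [e'] at h2; linarith)
  refine ⟨k1, ?_, ?_⟩
  · rw [e]
    linarith
  · rw [e']
    linarith

end Pool.Agent.U364.BM.LI
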