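import Pool.Agent.U364.BM.LI1

/-!
# Project BM (helper856), package LI: the orbit of the separatrix
-/

set_option autoImplicit false

open Set Filter Topology ComplexConjugate

namespace Pool.Agent.U364.BM.LI

open Pool.Agent.U856.BM Relation

theorem inj_abs {X : Type*} {R : X → X → Prop} {Z : ℕ → X} (hZ : ∀ n, R (Z n) (Z (n + 1)))
    (hu : ∀ n x y, R x (Z n) → R y (Z n) → x = y) (h0 : ¬ ∃ x, R x (Z 0)) :
    Function.Injective Z := by
  have key : ∀ n k, Z n ≠ Z (n + k + 1) := by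
    intro n
    induction n with
    | zero =>
      intro k hk
      apply h0
      refine ⟨Z (0 + k), ?_⟩
      rw [hk]
      exact hZ _
    | succ n ih =>
      intro k hk
      apply ih k
      have h1 := hZ n
      have h2 := hZ (n + k + 1)
      have h3 : Z (n + k + 1 + 1) = Z (n + 1) := by
        rw [hk]
        congr 1
        omega
      rw [h3] at h2
      exact hu _ _ _ h1 h2
  intro m n hmn
  rcases lt_trichotomy m n with h | h | h
  · obtain ⟨k, rfl⟩ := Nat.exists_eq_add_of_lt h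
    exact absurd hmn (key m k)
  · exact h
  · obtain ⟨k, rfl⟩ := Nat.exists_eq_add_of_lt h
    exact absurd hmn.symm (key n k)

theorem rs_sq (α : ℝ) (s : Fin 5) (hs : s ≠ 3) (i : St) : (rs α s i).1 ^ 2 = i.1 ^ 2 := by
  obtain ⟨w, τ⟩ := i
  have h : (nS α s ^ 2) ^ 2 = 1 := by
    rcases nS_sq α s hs with h | h <;> rw [h] <;> norm_num
  have h' : (conj (nS α s ^ 2)) ^ 2 = 1 := by
    rw [← map_pow, h, map_one]
  cases τ
  · show (-(w * (if (false : Bool) = true then (nS α s) ^ 2 else conj ((nS α s) ^ 2)))) ^ 2 = w ^ 2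
    rw [if_neg (by decide), neg_sq, mul_pow, h', mul_one]
  · show (-(w * (if (true : Bool) = true then (nS α s) ^ 2 else conj ((nS α s) ^ 2)))) ^ 2 = w ^ 2
    rw [if_pos rfl, neg_sq, mul_pow, h, mul_one]

theorem Al_rs {q : ℕ} {α : ℝ} {s : Fin 5} (hs : s ≠ 3) {i : St} (hi : Al q i) : Al q (rs α s i) := by
  unfold Al at *
  rw [pow_mul, rs_sq α s hs, ← pow_mul]
  exact hi

theorem C0_rs {α : ℝ} {s : Fin 5} (hs : s ≠ 3) {i : St} (hi : ¬ C0 i) : ¬ C0 (rs α s i) := by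
  unfold C0 at *
  rw [rs_sq α s hs]
  exact hi

variable {a b v α : ℝ} {q : ℕ}

theorem n3_pow (h1 : 0.75 < α) (h2 : α < 0.82) : (nS α 3 ^ 2) ^ 2 ≠ 1 := by
  obtain ⟨hs, hc⟩ := trig h1 h2
  intro h
  have h3 := congrArg Complex.re h
  have h4 : (Real.sin α * Real.sin α - Real.cos α * Real.cos α) *
      (Real.sin α * Real.sin α - Real.cos α * Real.cos α) -
      (Real.sin α * Real.cos α + Real.cos α * Real.sin α) *
      (Real.sin α * Real.cos α + Real.cos α * Real.sin α) = 1 := by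
    rw [← Complex.one_re, ← h3]
    simp [nS, pow_two]
  have h5 := Real.sin_sq_add_cos_sq α
  have h6 : 8 * (Real.sin α * Real.cos α) ^ 2 = 0 := by
    linear_combination (Real.sin α ^ 2 + Real.cos α ^ 2 + 1) * h5 - h4
  have h7 : 0 < Real.sin α * Real.cos α := mul_pos (by linarith) (by linarith)
  have h8 : 0 < 8 * (Real.sin α * Real.cos α) ^ 2 := by positivity
  linarith

theorem C0_rs3 (h1 : 0.75 < α) (h2 : α < 0.82) {i : St} (hi : C0 i) : ¬ C0 (rs α 3 i) := by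
  obtain ⟨w, τ⟩ := i
  intro hc
  have h := n3_pow h1 h2
  have hw : w ^ 2 = 1 := hi
  cases τ
  · have h3 : (-(w * (if (false : Bool) = true then (nS α 3) ^ 2 else conj ((nS α 3) ^ 2)))) ^ 2 = 1 :=
      hc
    rw [if_neg (by decide), neg_sq, mul_pow, hw, one_mul, ← map_pow] at h3
    apply h
    have h5 := congrArg conj h3
    rwa [Complex.conj_conj, map_one] at h5
  · have h3 : (-(w * (if (true : Bool) = true then (nS α 3) ^ 2 else conj ((nS α 3) ^ 2)))) ^ 2 = 1 :=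
      hc
    rw [if_pos rfl, neg_sq, mul_pow, hw, one_mul] at h3
    exact h h3

theorem Al_i0 {h : ℕ} (hq : q ≠ 0) (hα : α = Real.pi * h / q) : Al q (i0 α) := by
  have h3 : nS α 3 = Complex.I * Complex.exp (((-α : ℝ) : ℂ) * Complex.I) := by
    rw [Complex.exp_mul_I, ← Complex.ofReal_cos, ← Complex.ofReal_sin, Real.cos_neg, Real.sin_neg]
    apply Complex.ext <;> simp [nS, -Complex.ofReal_sin, -Complex.ofReal_cos]
  show (-((1 : ℂ) * (if (true : Bool) = true then (nS α 3) ^ 2 else conj ((nS α 3) ^ 2)))) ^ (2 * q) = 1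
  rw [if_pos rfl, one_mul, pow_mul, neg_sq, h3]
  have h4 : ((Complex.I * Complex.exp (((-α : ℝ) : ℂ) * Complex.I)) ^ 2) ^ 2 =
      Complex.I ^ 4 * Complex.exp (((-α : ℝ) : ℂ) * Complex.I) ^ 4 := by ring
  rw [h4, Complex.I_pow_four, one_mul, ← Complex.exp_nat_mul, ← Complex.exp_nat_mul,
    Complex.exp_eq_one_iff]
  refine ⟨-(2 * h), ?_⟩
  have hq' : (q : ℂ) ≠ 0 := by exact_mod_cast hq
  rw [hα]
  push_cast
  field_simp
  ring

theorem dt_dd (a b : ℝ) (x : ℂ) : dt (dd a b) x = (a * x.re + b * x.im) / √(a ^ 2 + b ^ 2) := by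
  unfold dt dd
  ring

theorem cr_dd (a b : ℝ) (x : ℂ) : cr (dd a b) x = (a * x.im - b * x.re) / √(a ^ 2 + b ^ 2) := by
  unfold cr dd
  ring

theorem G_one (x : ℂ) : G (1, true) x = x := by
  simp [G]

theorem start (hOk : Ok a b v α) : dt (dd a b) (G (i0 α) (nS α 4)) < 0 ∧
    dt (dd a b) (G (i0 α) (nS α 3)) < 0 := by
  obtain ⟨h1, h2, h3, h4, h5, h6, h7, h8⟩ := hOk
  obtain ⟨hs, hc⟩ := trig h7 h8
  have ha : 0 < a := by linarith
  have hb : 0 < b := by linarith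
  have hL : 0 < √(a ^ 2 + b ^ 2) := Real.sqrt_pos.2 (by positivity)
  have e' : a * (nS α 3).re + b * (nS α 3).im = a * Real.sin α + b * Real.cos α := by simp [nS]
  have k1 : 0.6 < a * Real.sin α := by nlinarith
  have k2 : 1.1 < b * Real.cos α := by nlinarith
  constructor
  · unfold i0
    have e1 : a * (nS α 4).re + b * (nS α 4).im = b := by simp [nS]
    have e : dt (nS α 3) (nS α 4) = Real.cos α := by simp [dt, nS]
    rw [D_rs, G_one, G_one, dt_dd, dt_dd, e, e', e1]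
    have e2 : b / √(a ^ 2 + b ^ 2) - 2 * Real.cos α * ((a * Real.sin α + b * Real.cos α) /
        √(a ^ 2 + b ^ 2)) = (b - 2 * Real.cos α * (a * Real.sin α + b * Real.cos α)) /
        √(a ^ 2 + b ^ 2) := by ring
    rw [e2]
    apply div_neg_of_neg_of_pos _ hL
    nlinarith
  · unfold i0
    rw [D_rs_self, G_one, dt_dd, e']
    have : 0 < (a * Real.sin α + b * Real.cos α) / √(a ^ 2 + b ^ 2) := div_pos (by linarith) hL
    linarith

theorem fin_Al (hq : q ≠ 0) : {i : St | Al q i}.Finite := by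
  have h1 : {w : ℂ | w ^ (2 * q) = 1}.Finite := by
    refine (Polynomial.nthRootsFinset (2 * q) (1 : ℂ)).finite_toSet.subset fun w hw => ?_
    exact (Polynomial.mem_nthRootsFinset (by omega) 1).2 hw
  exact (h1.prod (Set.finite_univ (α := Bool))).subset fun i hi => ⟨hi, trivial⟩

theorem bdd (a b v α : ℝ) (hq : q ≠ 0) : ∃ B, ∀ i, Al q i → ∀ u, InR a b v α i u → |u| ≤ B := by
  have h1 := ((fin_Al hq).prod (Set.finite_univ (α := Fin 5))).image
    (fun p : St × Fin 5 => |uu a b p.1 (vS a b v α p.2)|)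
  obtain ⟨B, hB⟩ := h1.bddAbove
  refine ⟨B, fun i hi u hu => ?_⟩
  obtain ⟨⟨k, hk⟩, m, hm⟩ := hu
  have h2 : |uu a b i (vS a b v α k)| ≤ B := hB ⟨(i, k), ⟨hi, trivial⟩, rfl⟩
  have h3 : |uu a b i (vS a b v α m)| ≤ B := hB ⟨(i, m), ⟨hi, trivial⟩, rfl⟩
  rw [abs_le] at h2 h3 ⊢
  constructor <;> linarith [h2.1, h2.2, h3.1, h3.2]

theorem step_C0 (hOk : Ok a b v α) {i : St} (hi : C0 i) {j : Fin 5} (hj : C0 (rs α j i)) :
    ∃ m : ℤ, 2 * oS a b v j * cr (dd a b) (G i (nS α j)) = m * (2 * a * b / √(a ^ 2 + b ^ 2)) := by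
  obtain ⟨h1, h2, h3, h4, h5, h6, h7, h8⟩ := hOk
  obtain ⟨w, τ⟩ := i
  have hw : w = 1 ∨ w = -1 := mul_self_eq_one_iff.1 (by rw [← pow_two]; exact hi)
  rw [cr_dd]
  fin_cases j
  · rcases hw with rfl | rfl <;> cases τ
    · exact ⟨1, by simp [oS, G, nS]; ring⟩
    · exact ⟨1, by simp [oS, G, nS]; ring⟩
    · exact ⟨-1, by simp [oS, G, nS]; ring⟩
    · exact ⟨-1, by simp [oS, G, nS]; ring⟩
  · rcases hw with rfl | rfl <;> cases τ
    · exact ⟨1, by simp [oS, G, nS]; ring⟩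
    · exact ⟨-1, by simp [oS, G, nS]; ring⟩
    · exact ⟨-1, by simp [oS, G, nS]; ring⟩
    · exact ⟨1, by simp [oS, G, nS]; ring⟩
  · exact ⟨0, by simp [oS]⟩
  · exact absurd hj (C0_rs3 h7 h8 hi)
  · exact ⟨0, by simp [oS]⟩

theorem not_ev (hOk : Ok a b v α) (hq : q ≠ 0) {z : ℕ → St × ℝ × ℝ}
    (hst : ∀ n, Stp a b v α (z n) (z (n + 1))) (hAl : ∀ n, Al q (z n).1) {B : ℝ}
    (hB : ∀ n, |(z n).2.1| ≤ B) (hinj : Function.Injective fun n => ((z n).1, (z n).2.1)) :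
    ¬ ∀ᶠ n in atTop, C0 (z n).1 := by
  intro h
  obtain ⟨N, hN⟩ := eventually_atTop.1 h
  have ha : 0 < a := by linarith [hOk.1]
  have hb : 0 < b := by linarith [hOk.2.2.1]
  have hc : 0 < 2 * a * b / √(a ^ 2 + b ^ 2) := by
    have hL : 0 < √(a ^ 2 + b ^ 2) := Real.sqrt_pos.2 (by positivity)
    positivity
  obtain ⟨c, hc'⟩ : ∃ c, c = 2 * a * b / √(a ^ 2 + b ^ 2) := ⟨_, rfl⟩
  have key : ∀ n, ∃ m : ℤ, (z (N + n)).2.1 = (z N).2.1 + m * c := by
    intro n
    induction n with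
    | zero => exact ⟨0, by simp⟩
    | succ n ih =>
      obtain ⟨m, hm⟩ := ih
      obtain ⟨j, hj, e⟩ := hst (N + n)
      have h3 := hN (N + n + 1) (by omega)
      rw [e] at h3
      obtain ⟨m', hm'⟩ := step_C0 hOk (hN (N + n) (by omega)) (j := j) h3
      refine ⟨m - m', ?_⟩
      have e2 : (z (N + (n + 1))).2.1 = (z (N + n)).2.1 - 2 * oS a b v j *
        cr (dd a b) (G (z (N + n)).1 (nS α j)) := by
        rw [← add_assoc, e]
      rw [e2, hm', hm, hc']
      push_cast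
      ring
  rw [← hc'] at hc
  have hfin : ({i : St | Al q i} ×ˢ ((fun m : ℤ => (z N).2.1 + m * c) ''
      (Icc (-⌈2 * B / c⌉) ⌈2 * B / c⌉))).Finite :=
    (fin_Al hq).prod ((Set.finite_Icc _ _).image _)
  refine Set.infinite_of_injective_forall_mem (f := fun n => ((z (N + n)).1, (z (N + n)).2.1))
    (fun m n hmn => ?_) (fun n => ?_) hfin
  · have h4 := hinj hmn
    simpa using h4
  · obtain ⟨m, hm⟩ := key n
    refine ⟨hAl _, m, ?_, hm.symm⟩
    have h5 : |(m : ℝ) * c| ≤ 2 * B := by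
      have e3 : (m : ℝ) * c = (z (N + n)).2.1 - (z N).2.1 := by rw [hm]; ring
      rw [e3]
      have h6 := abs_le.1 (hB (N + n))
      have h7 := abs_le.1 (hB N)
      rw [abs_le]
      constructor <;> linarith [h6.1, h6.2, h7.1, h7.2]
    rw [abs_mul, abs_of_pos hc, ← le_div_iff₀ hc] at h5
    have h6 : |(m : ℝ)| ≤ ⌈2 * B / c⌉ := h5.trans (Int.le_ceil _)
    have h7 : |m| ≤ ⌈2 * B / c⌉ := by exact_mod_cast h6
    exact abs_le.1 h7

end Pool.Agent.U364.BM.LI
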